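import Pool.Agent.Helper67.Cube6.Neg

/-!
# Simplices of the 7-cube with a facet in a given class

`sv c v` is the simplex of the 7-cube with the facet `simp6 c` in `x_0 = 0` and the opposite vertex
`(1, v)`.
-/

set_option autoImplicit false

namespace Helper67.Cube8

open Helper67.Cube Helper67.BS Helper67.Cube18
open Helper67.Cube6 (vc)

/-- the simplex with the vertex codes packed in `c` -/
def simp6 (c : ℕ) : Fin 7 → Fin 6 → ℝ := fun q => vtx 6 (vc c q)

/-- the simplex with the facet `simp6 c` in `x_0 = 0` and the vertex `(1, v)` -/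
def sv (c v : ℕ) : Fin 8 → Fin 7 → ℝ :=
  Fin.cons (Fin.cons (1 : ℝ) (vtx 6 v)) (fun q : Fin 7 => Fin.cons (0 : ℝ) (vtx 6 (vc c q)))

/-- invariance under the symmetries of the 6-cube and the order of the vertices -/
def Inv6 (Φ : (Fin 7 → Fin 6 → ℝ) → ℝ) : Prop :=
  ∀ (w w' : Fin 7 → Fin 6 → ℝ) (g : Sym 6) (σ : Equiv.Perm (Fin 7)),
    (∀ q, w' q = gmap g (w (σ q))) → Φ w' = Φ w

/-- bit `j` -/
def bt (u j : ℕ) : ℕ := Nat.mod (Nat.shiftRight u j) 2

/-- remove bit `j` -/
def del (j u : ℕ) : ℕ :=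
  Nat.add (Nat.mod u (Nat.shiftLeft 1 j)) (Nat.shiftLeft (Nat.shiftRight u (Nat.succ j)) j)

/-- sum of the column `j` of the codes of `c` and of `v` -/
def s8 (c v j : ℕ) : ℕ :=
  Nat.add (bt (vc c 0) j) (Nat.add (bt (vc c 1) j) (Nat.add (bt (vc c 2) j)
    (Nat.add (bt (vc c 3) j) (Nat.add (bt (vc c 4) j) (Nat.add (bt (vc c 5) j)
      (Nat.add (bt (vc c 6) j) (bt v j)))))))

/-- all but one of the eight vertices have the same coordinate `j` -/
def extB (c v j : ℕ) : Bool := Nat.beq (s8 c v j) 1 || Nat.beq (s8 c v j) 7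

/-- vertex of the exterior facet: the vertex `u`, or `v` in the place of the apex -/
def fvert (a j v u : ℕ) : ℕ :=
  cond (Nat.beq (bt u j) a) (Nat.mul 2 (del j u)) (Nat.succ (Nat.mul 2 (del j v)))

/-- the common value of the column -/
def aval (c v j : ℕ) : ℕ := cond (Nat.beq (s8 c v j) 7) 1 0

/-- codes of the exterior facet in direction `j` -/
def fcode (c v j : ℕ) : ℕ :=
  Nat.add (fvert (aval c v j) j v (vc c 0))
  (Nat.add (Nat.shiftLeft (fvert (aval c v j) j v (vc c 1)) 8)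
  (Nat.add (Nat.shiftLeft (fvert (aval c v j) j v (vc c 2)) 16)
  (Nat.add (Nat.shiftLeft (fvert (aval c v j) j v (vc c 3)) 24)
  (Nat.add (Nat.shiftLeft (fvert (aval c v j) j v (vc c 4)) 32)
  (Nat.add (Nat.shiftLeft (fvert (aval c v j) j v (vc c 5)) 40)
    (Nat.shiftLeft (fvert (aval c v j) j v (vc c 6)) 48))))))

end Helper67.Cube8
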