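import Pool.Agent.Helper67.Cube8.Defs

/-!
# Objectives with exceptional classes
-/

set_option autoImplicit false

namespace Helper67.Cube18

open Helper67.Cube
open Helper67.Cube6 (Ent vc LevL)
open Helper67.BS (ndet)

/-- `w` is in the class of the simplex with the codes `c` -/
def cls (w : Fin 7 → Fin 6 → ℝ) (c : ℕ) : Prop :=
  ∃ g : Sym 6, ∀ q, ∃ q' < 7, gmap g (w q) = vtx 6 (vc c q')

/-- membership in a list of codes -/
def memC (EC : List ℕ) (c : ℕ) : Bool :=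
  List.rec (motive := fun _ => Bool) false (fun a _ ih => cond (Nat.beq a c) true ih) EC

lemma memC_spec {EC : List ℕ} {c : ℕ} (h : memC EC c = true) : c ∈ EC := by
  induction EC with
  | nil => exact absurd h (by simp [memC])
  | cons a l ih =>
    have h1 : memC (a :: l) c = cond (Nat.beq a c) true (memC l c) := rfl
    rw [h1] at h
    cases h2 : Nat.beq a c
    · rw [h2, cond_false] at h
      exact List.mem_cons_of_mem _ (ih h)
    · rw [Nat.eq_of_beq_eq_true h2]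
      exact List.mem_cons_self

/-- the objective is bounded for all entries of the list except for the classes `EC` -/
def LZX (EC : List ℕ) (M : ℕ → ℕ → ℕ) (off : ℕ) (lp ln : List ℕ) (D : List Ent) : Prop :=
  ∀ e ∈ D, e.c ∈ EC ∨
    wsumL lp e.pc + off ≤ M (Nat.land e.pd 7) (Nat.shiftRight e.pd 3) + wsumL ln e.pc

lemma LZX.append {EC : List ℕ} {M : ℕ → ℕ → ℕ} {off : ℕ} {lp ln : List ℕ} {D D' : List Ent}
    (h : LZX EC M off lp ln D) (h' : LZX EC M off lp ln D') : LZX EC M off lp ln (D ++ D') := by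
  intro e he
  rcases List.mem_append.1 he with he | he
  · exact h e he
  · exact h' e he

/-- fast check of an objective with offset and exceptions -/
def objX (EC : List ℕ) (M : ℕ → ℕ → ℕ) (off m s P0 P1 P2 N0 N1 N2 : ℕ) (e : Ent) : Bool :=
  cond (objN M off m s P0 P1 P2 N0 N1 N2 e) true (memC EC e.c)

theorem LZX.of_fast {EC : List ℕ} {M : ℕ → ℕ → ℕ} {off n m s : ℕ} {p0 p1 p2 n0 n1 n2 : List ℕ}
    {P0 P1 P2 N0 N1 N2 : ℕ} {D : List Ent} (hm : MK n = m ∧ 48 * n = s)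
    (hP : okW n p0 P0 ∧ okW n p1 P1 ∧ okW n p2 P2)
    (hN : okW n n0 N0 ∧ okW n n1 N1 ∧ okW n n2 N2) (hn : 3 * n ≤ 255)
    (h : D.all (objX EC M off m s P0 P1 P2 N0 N1 N2) = true) :
    LZX EC M off (cd3 p0 p1 p2) (cd3 n0 n1 n2) D := by
  rw [List.all_eq_true] at h
  intro e he
  have h1 := h e he
  unfold objX at h1
  cases h2 : objN M off m s P0 P1 P2 N0 N1 N2 e
  · rw [h2, cond_false] at h1
    exact Or.inl (memC_spec h1)
  · right
    rw [wsumL_cd3 hm hP hn, wsumL_cd3 hm hN hn]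
    exact Nat.le_of_ble_eq_true h2

section base
variable {Q g G : ℕ} {x : ℕ → Fin 6 → ℕ} {ev : ℕ → ℕ → ℕ} {D : List Ent}
  {M : ℕ → ℕ → ℕ} {off : ℕ} {lp ln : List ℕ}

/-- the value of the objective for a class with certified counts -/
theorem HV.val {X : ℕ → ℕ → ℕ → ℕ} {one : ℕ} (h : HV Q g G X one ev D)
    (hQ : 0 < Q) (hg : g ≤ 18) (hg0 : 0 < g) (hev : ∀ γ < G, ∀ r < g, ev γ r ≤ 1)
    (ho : ∀ γ < G, ∀ r < g, PackedOrbit 6 Q 18 (x (g * γ + r)) (X γ r) one)
    (hlp : kindB (G * g) 0 (fun o => ev (o / g) (o % g)) lp = true)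
    (hln : kindB (G * g) 1 (fun o => ev (o / g) (o % g)) ln = true)
    {e : Ent} (he : e ∈ D) {w : Fin 7 → Fin 6 → ℝ} (hw : AffineIndependent ℝ w)
    (hc : cls w e.c) : PhiL Q x lp ln w + wsumL ln e.pc ≤ wsumL lp e.pc := by
  have hcase := h.digits hQ hg hg0 hev ho he hw hc
  have hlp' : ∀ q ∈ lp, q &&& 255 < G * g ∧ ev ((q &&& 255) / g) ((q &&& 255) % g) = 0 := by
    intro q hq
    rw [kindB, List.all_eq_true] at hlp
    have := hlp q hq
    rw [Bool.and_eq_true] at this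
    exact ⟨Nat.blt_eq.mp this.1, Nat.eq_of_beq_eq_true this.2⟩
  have hln' : ∀ q ∈ ln, q &&& 255 < G * g ∧ ev ((q &&& 255) / g) ((q &&& 255) % g) = 1 := by
    intro q hq
    rw [kindB, List.all_eq_true] at hln
    have := hln q hq
    rw [Bool.and_eq_true] at this
    exact ⟨Nat.blt_eq.mp this.1, Nat.eq_of_beq_eq_true this.2⟩
  have a1 : (lp.map fun q => (q >>> 8) * cnt (rp Q (x (q &&& 255))) (body w)).sum ≤
      wsumL lp e.pc := by
    rw [wsumL_eq]
    exact sum_map_le fun q hq => Nat.mul_le_mul_left _ ((hcase _ (hlp' q hq).1).1 (hlp' q hq).2)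
  have a2 : wsumL ln e.pc ≤
      (ln.map fun q => (q >>> 8) * cnt (rp Q (x (q &&& 255))) (interior (body w))).sum := by
    rw [wsumL_eq]
    exact sum_map_le fun q hq => Nat.mul_le_mul_left _ ((hcase _ (hln' q hq).1).2 (hln' q hq).2)
  have a4 : (((lp.map fun q => (q >>> 8) * cnt (rp Q (x (q &&& 255))) (body w)).sum : ℕ) : ℝ) ≤
      wsumL lp e.pc := by exact_mod_cast a1
  have a5 : ((wsumL ln e.pc : ℕ) : ℝ) ≤
        (((ln.map fun q => (q >>> 8) * cnt (rp Q (x (q &&& 255))) (interior (body w))).sum : ℕ)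
          : ℝ) := by exact_mod_cast a2
  unfold PhiL
  linarith

/-- the counts of a further list of classes, for the orbits of the base -/
structure ExtD (Q g G : ℕ) (x : ℕ → Fin 6 → ℕ) (ev : ℕ → ℕ → ℕ) (D : List Ent) : Prop where
  hQ : 0 < Q
  hg : g ≤ 18
  hg0 : 0 < g
  hev : ∀ γ < G, ∀ r < g, ev γ r ≤ 1
  hv : ∃ (X : ℕ → ℕ → ℕ → ℕ) (one : ℕ), HV Q g G X one ev D ∧
    ∀ γ < G, ∀ r < g, PackedOrbit 6 Q 18 (x (g * γ + r)) (X γ r) one

theorem ExtD.val (h : ExtD Q g G x ev D)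
    (hlp : kindB (G * g) 0 (fun o => ev (o / g) (o % g)) lp = true)
    (hln : kindB (G * g) 1 (fun o => ev (o / g) (o % g)) ln = true)
    {e : Ent} (he : e ∈ D) {w : Fin 7 → Fin 6 → ℝ} (hw : AffineIndependent ℝ w)
    (hc : cls w e.c) : PhiL Q x lp ln w + wsumL ln e.pc ≤ wsumL lp e.pc := by
  obtain ⟨X, one, h1, h2⟩ := h.hv
  exact h1.val h.hQ h.hg h.hg0 h.hev h2 hlp hln he hw hc

lemma Base6.extD (h : Base6 Q g G x ev D) : ExtD Q g G x ev D where
  hQ := h.hQ
  hg := h.hg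
  hg0 := h.hg0
  hev := h.hev
  hv := h.hv

/-- the bound of an objective with exceptional classes -/
theorem Base6.objX (h : Base6 Q g G x ev D) {EC : List ℕ} (hM : LZX EC M off lp ln D)
    (hlp : kindB (G * g) 0 (fun o => ev (o / g) (o % g)) lp = true)
    (hln : kindB (G * g) 1 (fun o => ev (o / g) (o % g)) ln = true)
    (w : Fin 7 → Fin 6 → ℝ) (hw : AffineIndependent ℝ w) (hv : ∀ i j, w i j = 0 ∨ w i j = 1) :
    PhiL Q x lp ln w + off ≤ M (kk w) (ndet w) ∨ ∃ c ∈ EC, cls w c := by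
  obtain ⟨e, he, hg, hk, hd⟩ := h.ent hw hv
  rcases hM e he with hE | h4
  · exact Or.inr ⟨e.c, hE, hg⟩
  · left
    have h5 := h.extD.val hlp hln he hw hg
    have h6 : ((wsumL lp e.pc : ℕ) : ℝ) + off ≤ M (kk w) (ndet w) + wsumL ln e.pc := by
      rw [hk, hd]
      exact_mod_cast h4
    linarith

end base

end Helper67.Cube18
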